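import Pool.Agent.helper68.FY.Spec

/-!
# Project fy, row ENB
-/

set_option autoImplicit false

namespace Pool.Agent.helper68.FY

open Finset

/-- A nonzero integer of absolute value less than `p` is nonzero mod `p`. -/
theorem ENB_cast (p : ℕ) (t : ℤ) (h0 : t ≠ 0) (h1 : |t| < p) : (t : ZMod p) ≠ 0 := by
  intro h
  rw [ZMod.intCast_zmod_eq_zero_iff_dvd] at h
  exact h0 (Int.eq_zero_of_abs_lt_dvd h h1)

theorem ENB_box (G : ℕ) (g : V4) (hg : g ∈ box G) (i : Fin 4) : |g i| ≤ G := by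
  rw [box, Fintype.mem_piFinset] at hg
  have := hg i
  rw [Finset.mem_Icc] at this
  exact abs_le.2 this

theorem ENB_dt (p G : ℕ) (hp : 2 * G ^ 2 < p) (g : V4) (hg : g ∈ PB G) :
    (dt g : ZMod p) ≠ 0 := by
  classical
  rw [PB, Finset.mem_filter] at hg
  refine ENB_cast p _ hg.2.1 ?_
  have hb := ENB_box G g hg.1
  have h1 : |dt g| ≤ |g 0| * |g 3| + |g 1| * |g 2| := by
    rw [dt, ← abs_mul, ← abs_mul]
    exact abs_sub _ _
  have h2 : |g 0| * |g 3| ≤ (G : ℤ) * G :=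
    mul_le_mul (hb 0) (hb 3) (abs_nonneg _) (by positivity)
  have h3 : |g 1| * |g 2| ≤ (G : ℤ) * G :=
    mul_le_mul (hb 1) (hb 2) (abs_nonneg _) (by positivity)
  have h4 : (2 * (G : ℤ) ^ 2) < p := by exact_mod_cast hp
  nlinarith

theorem ENB_inj (p : ℕ) [Fact p.Prime] (g : V4) (hg : (dt g : ZMod p) ≠ 0) (b b' b'' : ZMod p)
    (h1 : rl p g b b') (h2 : rl p g b b'') : b' = b'' := by
  unfold rl at h1 h2
  have hn : (g 2 : ZMod p) * b + (g 3 : ZMod p) ≠ 0 := by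
    intro hn
    rw [hn, mul_zero] at h1
    apply hg
    rw [dt]
    push_cast
    linear_combination (g 0 : ZMod p) * hn - (g 2 : ZMod p) * h1
  have h3 : (b' - b'') * ((g 2 : ZMod p) * b + (g 3 : ZMod p)) = 0 := by
    rw [sub_mul, ← h1, ← h2, sub_self]
  rcases mul_eq_zero.1 h3 with h | h
  · exact sub_eq_zero.1 h
  · exact absurd h hn

theorem ENB_comp (p : ℕ) (g h : V4) (b y z : ZMod p) (h1 : rl p g b z) (h2 : rl p h y z) :
    rl p (am h g) b y := by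
  unfold rl at h1 h2 ⊢
  have e0 : am h g 0 = h 3 * g 0 - h 1 * g 2 := rfl
  have e1 : am h g 1 = h 3 * g 1 - h 1 * g 3 := rfl
  have e2 : am h g 2 = h 0 * g 2 - h 2 * g 0 := rfl
  have e3 : am h g 3 = h 0 * g 3 - h 2 * g 1 := rfl
  rw [e0, e1, e2, e3]
  push_cast
  linear_combination ((h 3 : ZMod p) + y * (h 2 : ZMod p)) * h1 -
    ((g 2 : ZMod p) * b + (g 3 : ZMod p)) * h2

theorem ENB_smul (p : ℕ) [Fact p.Prime] (h : V4) (t : ℤ) (ht : (t : ZMod p) ≠ 0) (b y : ZMod p)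
    (h1 : rl p (t • h) b y) : rl p h b y := by
  unfold rl at h1 ⊢
  simp only [Pi.smul_apply, smul_eq_mul] at h1
  push_cast at h1
  apply mul_left_cancel₀ ht
  linear_combination h1

theorem ENB (h1 : CS_stmt) : ENB_stmt := by
  classical
  intro p _ G D B s hG hp hD hs
  have key := h1 (ZMod p × ZMod p) B.offDiag (rp p) 1 G D s hG hD ?_ ?_ ?_ hs
  · rw [Nat.cast_one, mul_one] at key
    exact key
  · intro g hg x _ T _ hT
    rw [Finset.card_le_one]
    intro y hy y' hy'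
    have hdt := ENB_dt p G hp g hg
    exact Prod.ext (ENB_inj p g hdt _ _ _ (hT y hy).1 (hT y' hy').1)
      (ENB_inj p g hdt _ _ _ (hT y hy).2 (hT y' hy').2)
  · intro g _ h _ x _ y _ z _ h2 h3
    exact ⟨ENB_comp p g h _ _ _ h2.1 h3.1, ENB_comp p g h _ _ _ h2.2 h3.2⟩
  · intro h t _ ht0 ht x _ y _ hr
    have ht1 : (t : ZMod p) ≠ 0 := by
      refine ENB_cast p t ht0 (lt_of_le_of_lt ht ?_)
      have h4 : (2 * (G : ℤ) ^ 2) < p := by exact_mod_cast hp
      nlinarith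
    exact ⟨ENB_smul p h t ht1 _ _ hr.1, ENB_smul p h t ht1 _ _ hr.2⟩

end Pool.Agent.helper68.FY
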